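import Pool.Agent.Q210.RS.CommA
import Pool.Agent.H180.RS.Stmts

/-!
# Products of elements of quadratic fields which are not squares in a cyclotomic field
-/

set_option autoImplicit false

namespace Pool.Agent.Q210.RS

open Finset

lemma sgn_cases {K : Type} [Field K] (P : Prop) [Decidable P] :
    ((if P then -1 else 1 : K)) * (if P then -1 else 1 : K) = 1 := by
  split_ifs <;> norm_num

theorem comm : Pool.Agent.H180.RS.PropComm := by
  classical
  intro M _ K _ _ _ κ _ A D x y z ρ hA hD hxyz hρ p q hp hq hpq hodd hsq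
  -- both primes are odd divisors of `M`
  have hpr : ∀ r : ℕ, r.Prime → (∃ e, (r : ℤ) ∣ A e ∨ (r : ℤ) ∣ D e) → r ≠ 2 ∧ r ∣ M := by
    rintro r hr ⟨e, he⟩
    rcases he with he | he
    · refine ⟨?_, ?_⟩
      · rintro rfl
        have := (hA e).1
        push_cast at he
        omega
      · exact Int.natCast_dvd_natCast.mp (he.trans (hA e).2.2)
    · refine ⟨?_, ?_⟩
      · rintro rfl
        have := (hD e).1
        push_cast at he
        omega
      · exact Int.natCast_dvd_natCast.mp (he.trans (hD e).2.2)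
  obtain ⟨e0, he0⟩ : ∃ e, ((p : ℤ) ∣ A e ∧ (q : ℤ) ∣ D e) ∨ ((q : ℤ) ∣ A e ∧ (p : ℤ) ∣ D e) := by
    by_contra hcon
    push Not at hcon
    rw [sum_eq_zero] at hodd
    · exact absurd hodd (by decide)
    · intro e _
      rw [if_neg (fun h => (hcon e).1 h.1 h.2), if_neg (fun h => (hcon e).2 h.1 h.2), add_zero]
  obtain ⟨hp2, hpM⟩ := hpr p hp ⟨e0, by tauto⟩
  obtain ⟨hq2, hqM⟩ := hpr q hq ⟨e0, by tauto⟩
  obtain ⟨g, hg⟩ := exists_aut (K := K) p hp hp2 hpM
  obtain ⟨h, hh⟩ := exists_aut (K := K) q hq hq2 hqM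
  have hcomm : ∀ w : K, g (h w) = h (g w) := by
    intro w
    have := (IsCyclotomicExtension.isMulCommutative {M} ℚ K).is_comm.comm g h
    exact congrArg (fun s : K ≃ₐ[ℚ] K => s w) this
  -- roots of the `D`
  have hM0 : 0 < M := Nat.pos_of_ne_zero (NeZero.ne M)
  have hζ := IsCyclotomicExtension.zeta_spec M ℚ K
  have hδ : ∀ e, ∃ δ : K, δ ^ 2 = (D e : K) := by
    intro e
    have h1 : Odd (D e).natAbs := by
      rw [Int.natAbs_odd, Int.odd_iff]; have := (hD e).1; omega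
    have h2 : (D e).natAbs ∣ M := by
      have := Int.natAbs_dvd_natAbs.mpr (hD e).2.2
      rwa [Int.natAbs_natCast] at this
    obtain ⟨β, hβ, -⟩ := exists_root hζ (D e).natAbs h1 h2
    refine ⟨β, ?_⟩
    rw [hβ]
    congr 1
    have := (hD e).1
    split_ifs <;> omega
  choose δ hδ using hδ
  set α : κ → K := fun e => (x e : K) + y e * ρ e with hα
  set α' : κ → K := fun e => (x e : K) - y e * ρ e with hα'
  have hαα : ∀ e, α e * α' e = (D e : K) * (z e : K) ^ 2 := by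
    intro e
    have h1 : ((x e ^ 2 - A e * y e ^ 2 : ℤ) : K) = ((D e * z e ^ 2 : ℤ) : K) := by
      rw [(hxyz e).1]
    push_cast at h1
    rw [← h1, hα, hα']
    simp only
    have := hρ e
    linear_combination (-(y e : K) ^ 2) * this
  have hD0 : ∀ e, (D e : K) ≠ 0 := fun e => by
    have : D e ≠ 0 := (hD e).2.1.ne_zero
    exact_mod_cast this
  have hz0 : ∀ e, (z e : K) ≠ 0 := fun e => by exact_mod_cast (hxyz e).2
  have hαα0 : ∀ e, α e * α' e ≠ 0 := fun e => by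
    rw [hαα]; exact mul_ne_zero (hD0 e) (pow_ne_zero _ (hz0 e))
  have hα0 : ∀ e, α e ≠ 0 := fun e => left_ne_zero_of_mul (hαα0 e)
  have hα'0 : ∀ e, α' e ≠ 0 := fun e => right_ne_zero_of_mul (hαα0 e)
  have hδ0 : ∀ e, δ e ≠ 0 := fun e h0 => by
    apply hD0 e
    rw [← hδ, h0]; norm_num
  set w : κ → K := fun e => δ e * z e / α e with hw
  have hw0 : ∀ e, w e ≠ 0 := fun e => div_ne_zero (mul_ne_zero (hδ0 e) (hz0 e)) (hα0 e)
  have hw2 : ∀ e, w e ^ 2 * α e = α' e := by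
    intro e
    have h1 := hαα e
    have h2 := hδ e
    have h3 := hα0 e
    rw [hw]
    simp only
    rw [div_pow, mul_pow, h2, ← h1]
    field_simp
  -- the general action of an automorphism
  have hact : ∀ (s : K ≃ₐ[ℚ] K) (r : ℕ), (∀ (B : ℤ), B % 4 = 1 → Squarefree B → B ∣ (M : ℤ) →
      ∀ β : K, β ^ 2 = (B : K) → s β = (if (r : ℤ) ∣ B then -1 else 1) * β) →
      ∀ e, s (α e) = (if (r : ℤ) ∣ A e then w e else 1) ^ 2 * α e := by
    intro s r hs e
    have h1 := hs (A e) (hA e).1 (hA e).2.1 (hA e).2.2 (ρ e) (hρ e)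
    have h2 : s (α e) = (x e : K) + y e * s (ρ e) := by
      rw [hα]; simp only; rw [map_add, map_mul, map_intCast, map_intCast]
    rw [h2, h1]
    split_ifs with h3
    · rw [hw2, hα']; ring
    · rw [hα]; ring
  have hactδ : ∀ (s : K ≃ₐ[ℚ] K) (r : ℕ), (∀ (B : ℤ), B % 4 = 1 → Squarefree B → B ∣ (M : ℤ) →
      ∀ β : K, β ^ 2 = (B : K) → s β = (if (r : ℤ) ∣ B then -1 else 1) * β) →
      ∀ e, s (w e) = (if (r : ℤ) ∣ D e then -1 else 1) *
        (if (r : ℤ) ∣ A e then δ e * z e / α' e else w e) := by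
    intro s r hs e
    have h1 := hs (D e) (hD e).1 (hD e).2.1 (hD e).2.2 (δ e) (hδ e)
    have h2 : s (w e) = s (δ e) * z e / s (α e) := by
      rw [hw]; simp only; rw [map_div₀, map_mul, map_intCast]
    rw [h2, h1, hact s r hs e]
    have h3 : ∀ c : K, c * δ e * z e / ((if (r : ℤ) ∣ A e then w e else 1) ^ 2 * α e) =
        c * (if (r : ℤ) ∣ A e then δ e * z e / α' e else w e) := by
      intro c
      split_ifs with h4
      · rw [hw2]; ring
      · rw [hw]; simp only; ring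
    exact h3 _
  obtain ⟨θ, hθ⟩ := hsq
  have hθ0 : θ ≠ 0 := by
    rintro rfl
    rw [mul_zero] at hθ
    exact (prod_ne_zero_iff.mpr fun e _ => hα0 e) hθ
  have hsθ : ∀ (s : K ≃ₐ[ℚ] K) (r : ℕ), (∀ (B : ℤ), B % 4 = 1 → Squarefree B → B ∣ (M : ℤ) →
      ∀ β : K, β ^ 2 = (B : K) → s β = (if (r : ℤ) ∣ B then -1 else 1) * β) →
      ∃ ε : K, ε ≠ 0 ∧ (∀ s' : K ≃ₐ[ℚ] K, s' ε = ε) ∧
        s θ = ε * (∏ e, if (r : ℤ) ∣ A e then w e else 1) * θ := by
    intro s r hs
    have h1 : s θ ^ 2 = ((∏ e, if (r : ℤ) ∣ A e then w e else 1) * θ) ^ 2 := by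
      rw [← map_pow, sq θ, ← hθ, map_prod, mul_pow, sq θ, ← hθ, ← prod_pow, ← prod_mul_distrib]
      exact prod_congr rfl fun e _ => hact s r hs e
    rcases sq_eq_sq_iff_eq_or_eq_neg.mp h1 with h2 | h2
    · exact ⟨1, one_ne_zero, fun s' => map_one s', by rw [h2]; ring⟩
    · exact ⟨-1, neg_ne_zero.mpr one_ne_zero, fun s' => by rw [map_neg, map_one],
        by rw [h2]; ring⟩
  obtain ⟨ε, hε0, hε, h1⟩ := hsθ g p hg
  obtain ⟨ε', hε'0, hε', h2⟩ := hsθ h q hh
  set a : κ → K := fun e => if (p : ℤ) ∣ A e then w e else 1 with ha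
  set b : κ → K := fun e => if (q : ℤ) ∣ A e then w e else 1 with hb
  have ha0 : ∀ e, a e ≠ 0 := fun e => by
    rw [ha]; simp only; split_ifs
    · exact hw0 e
    · exact one_ne_zero
  have hb0 : ∀ e, b e ≠ 0 := fun e => by
    rw [hb]; simp only; split_ifs
    · exact hw0 e
    · exact one_ne_zero
  have h3 : h (g θ) = ε * (∏ e, h (a e)) * (ε' * (∏ e, b e) * θ) := by
    rw [h1, map_mul, map_mul, hε, map_prod, h2]
  have h4 : g (h θ) = ε' * (∏ e, g (b e)) * (ε * (∏ e, a e) * θ) := by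
    rw [h2, map_mul, map_mul, hε', map_prod, h1]
  have h5 : (∏ e, h (a e) * b e) = ∏ e, g (b e) * a e := by
    rw [prod_mul_distrib, prod_mul_distrib]
    have h6 := hcomm θ
    rw [h3, h4] at h6
    have h7 : ε * ε' * θ ≠ 0 := mul_ne_zero (mul_ne_zero hε0 hε'0) hθ0
    apply mul_left_cancel₀ h7
    linear_combination -h6
  have h8 : ∀ e, h (a e) * b e =
      (-1) ^ ((if (p : ℤ) ∣ A e ∧ (q : ℤ) ∣ D e then 1 else 0) +
        (if (q : ℤ) ∣ A e ∧ (p : ℤ) ∣ D e then 1 else 0) : ℕ) * (g (b e) * a e) := by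
    intro e
    have hge := hactδ g p hg e
    have hhe := hactδ h q hh e
    rw [ha, hb]
    simp only
    by_cases c1 : (p : ℤ) ∣ A e <;> by_cases c2 : (q : ℤ) ∣ A e <;>
      by_cases c3 : (p : ℤ) ∣ D e <;> by_cases c4 : (q : ℤ) ∣ D e <;>
      simp only [c1, c2, c3, c4, if_true, if_false, and_true, and_false, true_and, false_and,
        map_one] at hge hhe ⊢ <;> (try rw [hge]) <;> (try rw [hhe]) <;> ring
  have h9 : (∏ e, g (b e) * a e) ≠ 0 := prod_ne_zero_iff.mpr fun e _ =>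
    mul_ne_zero (by
      rw [Ne, EmbeddingLike.map_eq_zero_iff]
      exact hb0 e) (ha0 e)
  rw [prod_congr rfl fun e _ => h8 e, prod_mul_distrib, prod_pow_eq_pow_sum, hodd.neg_one_pow] at h5
  have h10 : (∏ e, g (b e) * a e) * 2 = 0 := by linear_combination -h5
  rcases mul_eq_zero.mp h10 with h11 | h11
  · exact h9 h11
  · exact two_ne_zero h11

end Pool.Agent.Q210.RS
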