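import Pool.Agent.Q210.RS.ParA
import Pool.Agent.H180.RS.Stmts

/-!
# The parity of the number of the entries of order a power of `q`
-/

set_option autoImplicit false

namespace Pool.Agent.Q210.RS

open NumberField Finset Pool.Agent.H916K

/-- multiplicative characters with values roots of unity come from the algebraic integers -/
lemma exists_lift {F : Type} [Field F] [Fintype F] (χ : MulChar F ℂ) :
    ∃ χ' : MulChar F AI, χ'.ringHomComp (algebraMap AI ℂ) = χ := by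
  classical
  have hint : ∀ x : F, IsIntegral ℤ (χ x) := by
    intro x
    by_cases hx : x = 0
    · rw [hx, MulChar.map_zero]; exact isIntegral_zero
    · have h1 : orderOf χ ≠ 0 := (orderOf_pos χ).ne'
      have h2 := mulChar_pow_one (χ := χ) rfl hx
      refine IsIntegral.of_pow (orderOf_pos χ) ?_
      rw [h2]; exact isIntegral_one
  refine ⟨{ toFun := fun x => ⟨χ x, hint x⟩, map_one' := ?_, map_mul' := ?_, map_nonunit' := ?_ },
    ?_⟩
  · apply Subtype.ext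
    simp
  · intro x y
    apply Subtype.ext
    simp
  · intro x hx
    apply Subtype.ext
    have := MulChar.map_nonunit χ hx
    simpa using this
  · ext x
    rfl

lemma exists_exp2 {N N1 q e : ℕ} (hN : N = q ^ e * N1) (hN1 : 0 < N1) (hcop : (q ^ e).Coprime N1) :
    ∃ t : ℕ, t.Coprime N ∧ t * t ≡ 1 [MOD N] ∧ t + 1 ≡ 0 [MOD N1] ∧ t ≡ 1 [MOD q ^ e] := by
  set t : ℕ := (Nat.chineseRemainder hcop 1 (N1 - 1) : ℕ) with ht
  have h1 : t ≡ 1 [MOD q ^ e] := (Nat.chineseRemainder hcop 1 (N1 - 1)).2.1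
  have h2 : t ≡ N1 - 1 [MOD N1] := (Nat.chineseRemainder hcop 1 (N1 - 1)).2.2
  have h3 : t + 1 ≡ 0 [MOD N1] := by
    have := h2.add_right 1
    rw [Nat.sub_add_cancel hN1] at this
    exact this.trans ((Nat.modEq_zero_iff_dvd).mpr dvd_rfl)
  have h4 : t * t ≡ 1 [MOD N] := by
    rw [hN]
    apply (Nat.modEq_and_modEq_iff_modEq_mul hcop).mp
    constructor
    · exact (h1.mul h1).trans (by rfl)
    · have h5 : t * t + t ≡ 0 [MOD N1] := by
        have := h3.mul_left t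
        rwa [mul_zero, mul_add, mul_one] at this
      have h6 : t * t + t ≡ 1 + t [MOD N1] := h5.trans (by rw [add_comm 1 t]; exact h3.symm)
      exact Nat.ModEq.add_right_cancel' t h6
  refine ⟨t, ?_, h4, h3, h1⟩
  have h5 : Nat.gcd (t * t) N = 1 := (Nat.ModEq.gcd_eq h4).trans (by simp)
  exact Nat.Coprime.coprime_mul_right h5

theorem par (h1 : Pool.Agent.H180.RS.PropOm) (h2 : Pool.Agent.H180.RS.PropSym) :
    Pool.Agent.H180.RS.PropPar := by
  classical
  intro N _ K _ _ _ σ m M q b hmodd hmN hm hb hM hq hcop s hs hfix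
  have hN0 : 0 < N := Nat.pos_of_ne_zero (NeZero.ne N)
  have hm0 : 0 < m := by obtain ⟨k, rfl⟩ := hmodd; omega
  have hq2 : q ≠ 2 := by
    rintro rfl
    have : 2 ∣ m := hm ▸ (dvd_pow_self 2 hb.ne').mul_left M
    obtain ⟨k, hk⟩ := hmodd
    omega
  have hMm : M ∣ m := hm ▸ Dvd.intro _ rfl
  have hModd : Odd M := hmodd.of_dvd_nat hMm
  obtain ⟨e, N1, hN1, hN⟩ := Nat.exists_eq_pow_mul_and_not_dvd (NeZero.ne N) q hq.one_lt.ne'
  have hcopN : (q ^ e).Coprime N1 := ((Nat.Prime.coprime_iff_not_dvd hq).mpr hN1).pow_left e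
  have hN10 : 0 < N1 := by
    rcases Nat.eq_zero_or_pos N1 with h | h
    · rw [h, mul_zero] at hN; omega
    · exact h
  have hMN1 : M ∣ N1 := by
    have h3 : M ∣ q ^ e * N1 := hN ▸ (hMm.trans hmN)
    exact Nat.Coprime.dvd_of_dvd_mul_left (hcop.pow_right e) h3
  have hqbe : q ^ b ∣ q ^ e := by
    have h3 : q ^ b ∣ q ^ e * N1 := hN ▸ ((hm ▸ Dvd.intro_left _ rfl : q ^ b ∣ m).trans hmN)
    exact Nat.Coprime.dvd_of_dvd_mul_right
      (((Nat.Prime.coprime_iff_not_dvd hq).mpr hN1).pow_left b) h3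
  obtain ⟨t, htN, htt, htN1, htq⟩ := exists_exp2 hN hN10 hcopN
  -- the automorphism of `K`
  have hζ := IsCyclotomicExtension.zeta_spec N ℚ K
  set ζ := IsCyclotomicExtension.zeta N ℚ K with hζdef
  have hζt := hζ.pow_of_coprime t htN
  obtain ⟨g1, hg1⟩ : ∃ g1 : K ≃ₐ[ℚ] K, g1 ζ = ζ ^ t :=
    ⟨_, IsCyclotomicExtension.fromZetaAut_spec hζt (Polynomial.cyclotomic.irreducible_rat hN0)⟩
  have hg11 : ∀ x, g1 (g1 x) = x := by
    have h3 : g1 * g1 = 1 := by
      apply IsCyclotomicExtension.algEquiv_eq_of_apply_eq {N} ℚ K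
      intro n hn _
      rw [Set.mem_singleton_iff] at hn
      subst hn
      refine ⟨ζ, hζ, ?_⟩
      rw [AlgEquiv.mul_apply, hg1, map_pow, hg1, ← pow_mul, AlgEquiv.one_apply]
      have h4 := pow_eq_pow_of_modEq htt hζ.pow_eq_one
      rw [pow_one] at h4
      exact h4
    intro x
    exact congrArg (fun f : K ≃ₐ[ℚ] K => f x) h3
  -- the Kummer extension
  obtain ⟨Ω, _, _, j, hgal, hroots, hexp⟩ := h1 N K m hm0 hmN ((s.map Prod.snd).toFinset)
  have : IsGalois ℚ Ω := hgal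
  letI : Algebra K Ω := j.toAlgebra
  set g0 : Gal(Ω/ℚ) := g1.liftNormal Ω with hg0
  have hg0j : ∀ x : K, g0 (j x) = j (g1 x) := fun x => AlgEquiv.liftNormal_commutes g1 Ω x
  have hg02 : ∀ x : K, (g0 ^ 2) (j x) = j x := by
    intro x
    rw [sq, AlgEquiv.mul_apply, hg0j, hg0j, hg11]
  set g : Gal(Ω/ℚ) := g0 ^ m with hg
  have hgsq : g ^ 2 = 1 := by
    rw [hg, ← pow_mul, mul_comm, pow_mul]
    exact hexp _ hg02
  have hgj : ∀ x : K, g (j x) = j (g1 x) := by
    intro x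
    obtain ⟨k, hk⟩ := hmodd
    have h3 : ∀ k : ℕ, ((g0 ^ 2) ^ k) (j x) = j x := by
      intro k
      induction k with
      | zero => rw [pow_zero, AlgEquiv.one_apply]
      | succ k ih => rw [pow_succ, AlgEquiv.mul_apply, hg02, ih]
    rw [hg, hk, pow_succ', pow_mul, AlgEquiv.mul_apply, h3, hg0j]
  -- bounds
  obtain ⟨B1, hB1⟩ := hfix
  have hbd : ∃ B2 : ℕ, ∀ z ∈ s, ∀ (F : Type) [Field F] [Fintype F] (φ : 𝓞 K →+* F),
      Function.Surjective φ → B2 < Fintype.card F → φ z.2 ≠ 0 := by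
    have h3 : ∀ z : ZMod m × 𝓞 K, ∃ B : ℕ, z ∈ s → ∀ (F : Type) [Field F] [Fintype F]
        (φ : 𝓞 K →+* F), Function.Surjective φ → B < Fintype.card F → φ z.2 ≠ 0 := by
      intro z
      by_cases hz : z ∈ s
      · obtain ⟨B, hB⟩ := Pool.Agent.Q59.RL.exists_bound (hs z hz)
        exact ⟨B, fun _ => hB⟩
      · exact ⟨0, fun h => absurd h hz⟩
    choose Bf hBf using h3
    refine ⟨(s.map Bf).sum, fun z hz F _ _ φ hφ hF => hBf z hz F φ hφ ?_⟩
    exact lt_of_le_of_lt (Multiset.single_le_sum (fun _ _ => Nat.zero_le _) _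
      (Multiset.mem_map_of_mem _ hz)) hF
  obtain ⟨B2, hB2⟩ := hbd
  obtain ⟨ℓ, hℓF, Φ, hℓB, hΦ⟩ := exists_frob_field Ω g hgsq (N + B1 + B2 + 2)
  have hℓ : ℓ.Prime := hℓF.out
  have : Fact q.Prime := ⟨hq⟩
  have : Fintype (GaloisField ℓ 2) := Fintype.ofFinite _
  have hcard : Fintype.card (GaloisField ℓ 2) = ℓ ^ 2 := by
    rw [← Nat.card_eq_fintype_card]; exact GaloisField.card ℓ 2 (by norm_num)
  have hℓ2 := hℓ.two_le
  have hbig : ℓ ≤ Fintype.card (GaloisField ℓ 2) := by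
    rw [hcard, sq]; exact Nat.le_mul_self ℓ
  set φ : 𝓞 K →+* GaloisField ℓ 2 := Φ.comp (RingOfIntegers.mapRingHom j) with hφ
  -- the Frobenius on `φ`
  have hφfrob : ∀ x y : 𝓞 K, g1 (x : K) = (y : K) → φ y = φ x ^ ℓ := by
    intro x y hxy
    have h3 := hΦ (RingOfIntegers.mapRingHom j x)
    have h4 : g • (RingOfIntegers.mapRingHom j x) = RingOfIntegers.mapRingHom j y := by
      apply RingOfIntegers.ext
      change g (j x) = j y
      rw [hgj, hxy]
    rw [h4] at h3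
    exact h3
  have hζi : IsPrimitiveRoot hζ.toInteger N := hζ.toInteger_isPrimitiveRoot
  set ζi : 𝓞 K := hζ.toInteger with hζidef
  have hφζ : φ (ζi ^ t) = φ ζi ^ ℓ := by
    apply hφfrob
    have h3 : algebraMap (𝓞 K) K ζi = ζ := rfl
    change g1 (algebraMap (𝓞 K) K ζi) = algebraMap (𝓞 K) K (ζi ^ t)
    rw [map_pow, h3, hg1]
  have : NeZero ((N : ℕ) : GaloisField ℓ 2) := by
    refine ⟨fun h0 => ?_⟩
    rw [CharP.cast_eq_zero_iff (GaloisField ℓ 2) ℓ] at h0
    have := Nat.le_of_dvd hN0 h0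
    omega
  have hprim : IsPrimitiveRoot (φ ζi) N := by
    rw [← Polynomial.isRoot_cyclotomic_iff]
    have h3 := (hζi.isRoot_cyclotomic hN0).map (f := φ)
    rwa [Polynomial.map_cyclotomic] at h3
  have hℓt : ℓ ≡ t [MOD N] := by
    have h3 : φ ζi ^ ℓ = φ ζi ^ t := by rw [← hφζ, map_pow]
    have hu := hprim.isUnit hN0.ne'
    obtain ⟨u, hu⟩ := hu
    have h4 : u ^ ℓ = u ^ t := by
      apply Units.ext
      push_cast
      rw [hu, h3]
    rw [pow_eq_pow_iff_modEq] at h4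
    have h5 : orderOf u = N := by
      rw [← orderOf_units, hu]; exact hprim.eq_orderOf.symm
    rwa [h5] at h4
  have hMℓ : M ∣ ℓ + 1 := by
    have h3 : ℓ ≡ t [MOD N1] := hℓt.of_dvd (hN ▸ Dvd.intro_left _ rfl)
    have h4 : ℓ + 1 ≡ 0 [MOD N1] := (h3.add_right 1).trans htN1
    exact hMN1.trans ((Nat.modEq_zero_iff_dvd).mp h4)
  have hqbℓ : q ^ b ∣ ℓ - 1 := by
    have h3 : ℓ ≡ t [MOD q ^ e] := hℓt.of_dvd (hN ▸ Dvd.intro _ rfl)
    have h4 : 1 ≡ ℓ [MOD q ^ e] := (h3.trans htq).symm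
    exact hqbe.trans ((Nat.modEq_iff_dvd' (by omega)).mp h4)
  have hℓodd : ℓ % 2 = 1 := by
    rcases hℓ.eq_two_or_odd with h | h
    · omega
    · exact h
  have h2M : 2 * M ∣ ℓ + 1 := by
    apply Nat.Coprime.mul_dvd_of_dvd_of_dvd _ (by omega) hMℓ
    exact (Nat.coprime_two_left).mpr hModd
  have hfac : ℓ ^ 2 - 1 = (ℓ + 1) * (ℓ - 1) := by
    obtain ⟨k, rfl⟩ : ∃ k, ℓ = k + 1 := ⟨ℓ - 1, by omega⟩
    simp only [Nat.add_sub_cancel]
    have : (k + 1) ^ 2 = (k + 1 + 1) * k + 1 := by ring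
    omega
  have hmdvd : m ∣ Fintype.card (GaloisField ℓ 2) - 1 := by
    rw [hcard, hfac, ← hm]; exact Nat.mul_dvd_mul hMℓ hqbℓ
  -- surjectivity
  have hsurj : Function.Surjective φ := by
    refine surj_of_frob hcard φ ζi ?_
    intro h3
    have h4 : ℓ ≡ 1 [MOD N] := by
      have hu := hprim.isUnit hN0.ne'
      obtain ⟨u, hu⟩ := hu
      have h4 : u ^ ℓ = u ^ 1 := by
        apply Units.ext
        push_cast
        rw [hu, h3, pow_one]
      rw [pow_eq_pow_iff_modEq] at h4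
      have h5 : orderOf u = N := by
        rw [← orderOf_units, hu]; exact hprim.eq_orderOf.symm
      rwa [h5] at h4
    have h5 : N ∣ ℓ - 1 := (Nat.modEq_iff_dvd' (by omega)).mp h4.symm
    have h6 : M ∣ ℓ - 1 := (hMm.trans hmN).trans h5
    have h7 : M ∣ (ℓ + 1) - (ℓ - 1) := Nat.dvd_sub hMℓ h6
    have h8 : (ℓ + 1) - (ℓ - 1) = 2 := by omega
    rw [h8] at h7
    have := Nat.le_of_dvd (by norm_num) h7
    omega
  -- the symbol
  obtain ⟨ζm, hζm⟩ : ∃ ζm : 𝓞 K, IsPrimitiveRoot ζm m := by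
    obtain ⟨c, hc⟩ := hmN
    exact ⟨ζi ^ c, hζi.pow hN0 (by rw [hc, mul_comm])⟩
  obtain ⟨χ, hχ⟩ := h2 K m ζm hζm hm0 σ (GaloisField ℓ 2) φ hsurj hmdvd
  obtain ⟨χ', hχ'⟩ := exists_lift χ
  have hinj : Function.Injective (algebraMap AI ℂ) := Subtype.val_injective
  have hordχ : orderOf χ' = m := by
    rw [← hχ.order, ← hχ']
    exact (orderOf_injective (MulChar.ringHomCompHom (algebraMap AI ℂ))
      (MulChar.injective_ringHomComp hinj) χ').symm
  -- the additive character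
  obtain ⟨ξ, hξ⟩ : ∃ ξ : AI, IsPrimitiveRoot ξ ℓ := by
    have h1 := Complex.isPrimitiveRoot_exp ℓ hℓ.ne_zero
    have h2 : IsIntegral ℤ (Complex.exp (2 * Real.pi * Complex.I / ℓ)) :=
      h1.isIntegral hℓ.pos
    refine ⟨⟨_, h2⟩, ?_⟩
    exact IsPrimitiveRoot.of_map_of_injective (f := algebraMap AI ℂ) h1 hinj
  set ψ0 : AddChar (ZMod ℓ) AI := AddChar.zmodChar ℓ hξ.pow_eq_one with hψ0
  have hψ1 : ψ0 ≠ 1 := by
    intro h
    have h1 : ψ0 1 = 1 := by rw [h]; rfl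
    rw [hψ0, AddChar.zmodChar_apply] at h1
    have : Fact (1 < ℓ) := ⟨hℓ.one_lt⟩
    rw [ZMod.val_one, pow_one] at h1
    exact hξ.ne_one hℓ.one_lt h1
  set ψ := ψ0.compAddMonoidHom (Algebra.trace (ZMod ℓ) (GaloisField ℓ 2)).toAddMonoidHom with hψdef
  set ψ' : AddChar (GaloisField ℓ 2) ℂ := (algebraMap AI ℂ).toMonoidHom.compAddChar ψ with hψ'
  have hψ'1 : ψ' ≠ 1 := by
    intro h
    apply hψ1
    ext c
    obtain ⟨x, hx⟩ := Algebra.trace_surjective (ZMod ℓ) (GaloisField ℓ 2) c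
    have h1 : ψ' x = 1 := by rw [h]; rfl
    rw [← hx]
    exact h1
  have hmain := hB1 (GaloisField ℓ 2) φ hsurj (by omega) χ ψ' hχ hψ'1
  -- the coefficients are powers
  have hcoef : ∀ z ∈ s, (χ ^ z.1.val) (φ z.2) = 1 := by
    intro z hz
    have h0 : φ z.2 ≠ 0 := hB2 z hz _ φ hsurj (by omega)
    obtain ⟨β, hβ⟩ := hroots z.2 (by
      rw [Multiset.mem_toFinset]; exact Multiset.mem_map_of_mem _ hz)
    have hβi : IsIntegral ℤ β := by
      refine IsIntegral.of_pow hm0 ?_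
      rw [hβ]
      exact (RingOfIntegers.mapRingHom j z.2).2
    obtain ⟨βi, hβi'⟩ : ∃ βi : 𝓞 Ω, algebraMap (𝓞 Ω) Ω βi = β := ⟨⟨β, hβi⟩, rfl⟩
    have h3 : φ z.2 = Φ βi ^ m := by
      have h6 : RingOfIntegers.mapRingHom j z.2 = βi ^ m := by
        apply RingOfIntegers.ext
        change j z.2 = algebraMap (𝓞 Ω) Ω (βi ^ m)
        rw [map_pow, hβi', hβ]
      rw [← map_pow, ← h6]
      rfl
    have h4 : Φ βi ≠ 0 := by
      intro h5
      apply h0
      rw [h3, h5, zero_pow hm0.ne']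
    rw [mulChar_pow_apply χ _ h0, h3, map_pow, mulChar_pow_one hχ.order h4, one_pow]
  have hg' : ∀ a : ℕ, gaussSum (χ ^ a) ψ' = algebraMap AI ℂ (gaussSum (χ' ^ a) ψ) := by
    intro a
    unfold gaussSum
    rw [map_sum]
    refine sum_congr rfl fun x _ => ?_
    rw [map_mul, ← hχ', MulChar.ringHomComp_pow, MulChar.ringHomComp_apply]
    rfl
  have h3 : (s.map fun z => gaussSum (χ' ^ z.1.val) ψ).prod =
      (Fintype.card (GaloisField ℓ 2) : AI) ^ (Multiset.card s / 2) := by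
    apply hinj
    rw [map_pow, map_natCast, map_multiset_prod, Multiset.map_map]
    have e1 : (s.map ((algebraMap AI ℂ) ∘ fun z => gaussSum (χ' ^ z.1.val) ψ)) =
        s.map fun z => gaussSum (χ ^ z.1.val) ψ' :=
      Multiset.map_congr rfl fun z _ => (hg' _).symm
    have e2 : (s.map fun z => (χ ^ z.1.val) (φ z.2)) = s.map fun _ => (1 : ℂ) :=
      Multiset.map_congr rfl fun z hz => hcoef z hz
    rw [e1, hmain, e2, Multiset.map_const', Multiset.prod_replicate, one_pow, mul_one]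
  obtain ⟨k, _, _, ⟨red⟩⟩ := exists_red hq
  have hℓk : ((ℓ : ℕ) : k) = 1 := by
    have h4 : ((ℓ - 1 : ℕ) : k) = 0 := by
      rw [CharP.cast_eq_zero_iff k q]
      exact (dvd_pow_self q hb.ne').trans hqbℓ
    rw [Nat.cast_sub (by omega), Nat.cast_one] at h4
    exact sub_eq_zero.mp h4
  have hχm : orderOf χ' = M * q ^ b := by rw [hordχ, hm]
  have h4 := congrArg red h3
  rw [map_pow, map_natCast, map_multiset_prod, Multiset.map_map] at h4
  have e1 : (s.map (red ∘ fun z => gaussSum (χ' ^ z.1.val) ψ)) =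
      s.map fun z => if M ∣ z.1.val then (-1 : k) else 1 :=
    Multiset.map_congr rfl fun z _ => red_gauss red hcard h2M hcop hℓk hχm hψ1 _
  rw [e1, prod_signs, hcard] at h4
  push_cast at h4
  rw [hℓk, one_pow, one_pow] at h4
  by_contra hodd
  rw [Nat.not_even_iff_odd] at hodd
  rw [hodd.neg_one_pow] at h4
  have h5 : ((2 : ℕ) : k) = 0 := by push_cast; linear_combination -h4
  rw [CharP.cast_eq_zero_iff k q] at h5
  have := (Nat.prime_dvd_prime_iff_eq hq Nat.prime_two).mp h5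
  exact hq2 this

end Pool.Agent.Q210.RS
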