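import Pool.Agent.W401.Cheb.Main
import Pool.Agent.H916K.Sign

/-!
# Frobenius elements of order two and fields with `ℓ²` elements
-/

set_option autoImplicit false

namespace Pool.Agent.Q210.RS

open NumberField

lemma mem_range_of_frob {k F : Type} [Field k] [Field F] [Fintype F] (ι : F →+* k) (x : k)
    (hx : x ^ Fintype.card F = x) : ∃ a, ι a = x := by
  classical
  have hq : 1 < Fintype.card F := Fintype.one_lt_card
  set P : Polynomial k := Polynomial.X ^ Fintype.card F - Polynomial.X with hP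
  have hP0 : P ≠ 0 := FiniteField.X_pow_card_sub_X_ne_zero k hq
  have hdeg : P.natDegree = Fintype.card F := FiniteField.X_pow_card_sub_X_natDegree_eq k hq
  have hroot : ∀ y : k, y ^ Fintype.card F = y → y ∈ P.roots.toFinset := by
    intro y hy
    rw [Multiset.mem_toFinset, Polynomial.mem_roots hP0, Polynomial.IsRoot.def, hP]
    simp [hy]
  have hsub : (Finset.univ.image ι) ⊆ P.roots.toFinset := by
    intro y hy
    obtain ⟨a, -, rfl⟩ := Finset.mem_image.mp hy
    apply hroot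
    rw [← map_pow, FiniteField.pow_card]
  have hcard : P.roots.toFinset.card ≤ (Finset.univ.image ι).card := by
    rw [Finset.card_image_of_injective _ ι.injective, Finset.card_univ, ← hdeg]
    exact (Multiset.toFinset_card_le _).trans (Polynomial.card_roots' P)
  have := Finset.eq_of_subset_of_card_le hsub hcard
  have h1 := hroot x hx
  rw [← this] at h1
  obtain ⟨a, -, ha⟩ := Finset.mem_image.mp h1
  exact ⟨a, ha⟩

lemma surj_of_frob {R F : Type} [CommRing R] [Field F] [Fintype F] {ℓ : ℕ} [Fact ℓ.Prime]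
    [Algebra (ZMod ℓ) F] (hcard : Fintype.card F = ℓ ^ 2) (φ : R →+* F) (u : R)
    (hu : φ u ^ ℓ ≠ φ u) : Function.Surjective φ := by
  classical
  have hℓ : ℓ.Prime := Fact.out
  set H : AddSubgroup F := φ.toAddMonoidHom.range with hH
  set P : AddSubgroup F := (algebraMap (ZMod ℓ) F).toAddMonoidHom.range with hPdef
  have hP : Nat.card P = ℓ := by
    have h1 : Nat.card P = Nat.card (ZMod ℓ) := by
      refine (Nat.card_congr (AddMonoidHom.ofInjective (f := (algebraMap (ZMod ℓ) F).toAddMonoidHom)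
        ?_).toEquiv).symm
      exact (algebraMap (ZMod ℓ) F).injective
    rw [h1, Nat.card_zmod]
  have hPH : P ≤ H := by
    rintro y ⟨c, rfl⟩
    refine ⟨((c.val : ℕ) : R), ?_⟩
    change φ ((c.val : ℕ) : R) = algebraMap (ZMod ℓ) F c
    rw [map_natCast]
    conv_rhs => rw [← ZMod.natCast_zmod_val c]
    rw [map_natCast]
  have hdvd : Nat.card H ∣ ℓ ^ 2 := by
    rw [← hcard, ← Nat.card_eq_fintype_card]
    exact AddSubgroup.card_addSubgroup_dvd_card H
  obtain ⟨k, hk, hk'⟩ := (Nat.dvd_prime_pow hℓ).mp hdvd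
  have h2 : Nat.card H = ℓ ^ 2 := by
    by_contra hne
    have hk1 : k ≤ 1 := by
      by_contra h
      have : k = 2 := by omega
      rw [this] at hk'
      exact hne hk'
    have h3 : Nat.card H ≤ Nat.card P := by
      rw [hk', hP]
      calc ℓ ^ k ≤ ℓ ^ 1 := Nat.pow_le_pow_right hℓ.pos hk1
        _ = ℓ := pow_one ℓ
    have h4 : (P : Set F) = H := by
      apply Set.eq_of_subset_of_ncard_le hPH
      exact h3
    have h5 : φ u ∈ (H : Set F) := ⟨u, rfl⟩
    rw [← h4] at h5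
    obtain ⟨c, hc⟩ := h5
    apply hu
    have hc' : algebraMap (ZMod ℓ) F c = φ u := hc
    rw [← hc', ← map_pow, ZMod.pow_card]
  have h3 : H = ⊤ := by
    apply AddSubgroup.eq_top_of_card_eq
    rw [h2, Nat.card_eq_fintype_card, hcard]
  intro y
  have : y ∈ H := by rw [h3]; trivial
  obtain ⟨x, hx⟩ := this
  exact ⟨x, hx⟩

lemma exists_frob_field (Ω : Type) [Field Ω] [NumberField Ω] [IsGalois ℚ Ω] (g : Gal(Ω/ℚ))
    (hg : g ^ 2 = 1) (B : ℕ) : ∃ (ℓ : ℕ) (_ : Fact ℓ.Prime) (Φ : 𝓞 Ω →+* GaloisField ℓ 2),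
      B < ℓ ∧ ∀ x, Φ (g • x) = Φ x ^ ℓ := by
  classical
  obtain ⟨ℓ, ⟨hℓ, hxp⟩, hB⟩ := (Pool.Agent.W401.Cheb.infinite_frob Ω g).exists_gt B
  have : Fact ℓ.Prime := ⟨hℓ⟩
  have hne : Nonempty {φ : 𝓞 Ω →+* AlgebraicClosure (ZMod ℓ) //
      Pool.Agent.W401.Cheb.HasFrob ℓ φ g} := by
    by_contra hem
    rw [not_nonempty_iff] at hem
    apply hxp
    unfold Pool.Agent.W401.Cheb.xp
    rw [dif_pos hℓ]
    exact Nat.card_of_isEmpty
  obtain ⟨Φ, hΦ⟩ := hne
  have : Fintype (GaloisField ℓ 2) := Fintype.ofFinite _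
  have hcard : Fintype.card (GaloisField ℓ 2) = ℓ ^ 2 := by
    rw [← Nat.card_eq_fintype_card]; exact GaloisField.card ℓ 2 (by norm_num)
  set ι : GaloisField ℓ 2 →+* AlgebraicClosure (ZMod ℓ) :=
    (IsAlgClosed.lift : GaloisField ℓ 2 →ₐ[ZMod ℓ] AlgebraicClosure (ZMod ℓ)).toRingHom with hι
  have h1 : ∀ x, Φ x ∈ ι.range := by
    intro x
    obtain ⟨a, ha⟩ := mem_range_of_frob ι (Φ x) (by
      rw [hcard, sq, pow_mul, ← hΦ x, ← hΦ (g • x), smul_smul, ← sq, hg, one_smul])
    exact ⟨a, ha⟩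
  have hbij : Function.Bijective ι.rangeRestrict :=
    ⟨fun a b hab => ι.injective (congrArg Subtype.val hab), ι.rangeRestrict_surjective⟩
  set e : GaloisField ℓ 2 ≃+* ι.range := RingEquiv.ofBijective ι.rangeRestrict hbij with he
  refine ⟨ℓ, ⟨hℓ⟩, e.symm.toRingHom.comp (Φ.codRestrict ι.range h1), hB, ?_⟩
  have h2 : ∀ x, ι (e.symm.toRingHom.comp (Φ.codRestrict ι.range h1) x) = Φ x := by
    intro x
    have h3 : e (e.symm (Φ.codRestrict ι.range h1 x)) = Φ.codRestrict ι.range h1 x :=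
      e.apply_symm_apply _
    exact congrArg Subtype.val h3
  intro x
  apply ι.injective
  rw [map_pow, h2, h2]
  exact hΦ x

end Pool.Agent.Q210.RS
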