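import Mathlib

/-!
# Square roots of products of signed primes in cyclotomic fields
-/

set_option autoImplicit false

namespace Pool.Agent.Q210.RS

open Finset

variable {M : ℕ} [NeZero M] {K : Type} [Field K] [NumberField K]

/-- the automorphism raises a chosen primitive root to the power `t` -/
def Acts (ζ : K) (g : K ≃ₐ[ℚ] K) (t : ℕ) : Prop := g ζ = ζ ^ t

lemma exists_gamma {ζ : K} (hζ : IsPrimitiveRoot ζ M) (r : ℕ) (hr : r.Prime) (hr2 : r ≠ 2)
    (hrM : r ∣ M) : ∃ γ : K, γ ^ 2 = ((if r % 4 = 1 then (r : ℤ) else -(r : ℤ) : ℤ) : K) ∧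
      ∀ (g : K ≃ₐ[ℚ] K) (t : ℕ), Acts ζ g t → t.Coprime M →
        g γ = ((jacobiSym t r : ℤ) : K) * γ := by
  classical
  have : Fact r.Prime := ⟨hr⟩
  have hM0 : 0 < M := Nat.pos_of_ne_zero (NeZero.ne M)
  have hζr : IsPrimitiveRoot (ζ ^ (M / r)) r :=
    hζ.pow hM0 (Nat.div_mul_cancel hrM).symm
  set f : ℤ →+* K := Int.castRingHom K with hf
  have hfi : Function.Injective f := Int.cast_injective
  set χ : MulChar (ZMod r) K := (quadraticChar (ZMod r)).ringHomComp f with hχ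
  set ψ : AddChar (ZMod r) K := AddChar.zmodChar r hζr.pow_eq_one with hψ
  have hchar : ringChar (ZMod r) ≠ 2 := by rw [ZMod.ringChar_zmod_n]; exact hr2
  have hq : (quadraticChar (ZMod r)).IsQuadratic := quadraticChar_isQuadratic (ZMod r)
  have hχ1 : χ ≠ 1 := (MulChar.ringHomComp_ne_one_iff hfi).mpr (quadraticChar_ne_one hchar)
  have hψp : ψ.IsPrimitive := AddChar.zmodChar_primitive_of_primitive_root r hζr
  refine ⟨gaussSum χ ψ, ?_, ?_⟩
  · rw [gaussSum_sq hχ1 (hq.comp f) hψp, hχ, MulChar.ringHomComp_apply,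
      quadraticChar_neg_one hchar, ZMod.card, ZMod.χ₄_nat_eq_if_mod_four]
    have hodd : r % 2 ≠ 0 := by
      have := hr.eq_two_or_odd
      omega
    rw [if_neg hodd]
    split_ifs with h
    · simp [hf]
    · simp [hf]
  · intro g t hg ht
    have htr : ((t : ℕ) : ZMod r) ≠ 0 := by
      intro h0
      rw [ZMod.natCast_eq_zero_iff] at h0
      have h1 : r ∣ Nat.gcd t M := Nat.dvd_gcd h0 hrM
      rw [ht] at h1
      exact hr.one_lt.ne' (Nat.dvd_one.mp h1)
    have hu : IsUnit ((t : ℕ) : ZMod r) := isUnit_iff_ne_zero.mpr htr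
    obtain ⟨u, hu⟩ := hu
    have h1 : g (gaussSum χ ψ) = gaussSum χ (ψ.mulShift ((t : ℕ) : ZMod r)) := by
      unfold gaussSum
      rw [map_sum]
      refine sum_congr rfl fun a _ => ?_
      rw [map_mul]
      congr 1
      · rw [hχ, MulChar.ringHomComp_apply, hf, eq_intCast, map_intCast]
      · rw [AddChar.mulShift_apply]
        have h2 : g (ψ a) = (ψ a) ^ t := by
          rw [hψ, AddChar.zmodChar_apply, map_pow, map_pow]
          rw [show g ζ = ζ ^ t from hg]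
          ring
        rw [h2, ← AddChar.map_nsmul_eq_pow, nsmul_eq_mul]
    have h2 := gaussSum_mulShift χ ψ u
    rw [hu, ← h1] at h2
    have h3 : χ ((t : ℕ) : ZMod r) = ((jacobiSym t r : ℤ) : K) := by
      rw [hχ, MulChar.ringHomComp_apply, ← jacobiSym.legendreSym.to_jacobiSym, legendreSym, hf,
        eq_intCast]
      simp
    have h4 : χ ((t : ℕ) : ZMod r) * χ ((t : ℕ) : ZMod r) = 1 := by
      rw [hχ, MulChar.ringHomComp_apply, ← map_mul, ← sq, quadraticChar_sq_one htr, map_one]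
    rw [← h3]
    calc g (gaussSum χ ψ) = χ ((t : ℕ) : ZMod r) * χ ((t : ℕ) : ZMod r) * g (gaussSum χ ψ) := by
          rw [h4, one_mul]
      _ = χ ((t : ℕ) : ZMod r) * gaussSum χ ψ := by rw [mul_assoc, h2]

/-- **Square roots.** -/
lemma exists_root {ζ : K} (hζ : IsPrimitiveRoot ζ M) (n : ℕ) : Odd n → n ∣ M →
    ∃ β : K, β ^ 2 = ((if n % 4 = 1 then (n : ℤ) else -(n : ℤ) : ℤ) : K) ∧
      ∀ (g : K ≃ₐ[ℚ] K) (t : ℕ), Acts ζ g t → t.Coprime M →
        g β = ((jacobiSym t n : ℤ) : K) * β := by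
  induction n using Nat.recOnMul with
  | zero => intro h; exact absurd h (by decide)
  | one =>
    intro _ _
    refine ⟨1, by norm_num, ?_⟩
    intro g t _ _
    simp
  | prime p hp =>
    intro h1 h2
    refine exists_gamma hζ p hp ?_ h2
    rintro rfl
    exact absurd h1 (by decide)
  | mul a b iha ihb =>
    intro h1 h2
    rw [Nat.odd_mul] at h1
    obtain ⟨α, hα, hα'⟩ := iha h1.1 ((Dvd.intro b rfl).trans h2)
    obtain ⟨β, hβ, hβ'⟩ := ihb h1.2 ((Dvd.intro_left a rfl).trans h2)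
    refine ⟨α * β, ?_, ?_⟩
    · rw [mul_pow, hα, hβ]
      rw [← Int.cast_mul]
      congr 1
      have ha : a % 4 = 1 ∨ a % 4 = 3 := by obtain ⟨k, hk⟩ := h1.1; omega
      have hb : b % 4 = 1 ∨ b % 4 = 3 := by obtain ⟨k, hk⟩ := h1.2; omega
      have hab : (a * b) % 4 = ((a % 4) * (b % 4)) % 4 := Nat.mul_mod a b 4
      rcases ha with ha | ha <;> rcases hb with hb | hb <;> rw [ha, hb] at hab <;>
        simp [ha, hb, hab]
    · intro g t hg ht
      have : NeZero a := ⟨by rintro rfl; exact absurd h1.1 (by decide)⟩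
      have : NeZero b := ⟨by rintro rfl; exact absurd h1.2 (by decide)⟩
      rw [map_mul, hα' g t hg ht, hβ' g t hg ht, jacobiSym.mul_right]
      push_cast
      ring

/-- The integer version. -/
lemma root_act {ζ : K} (hζ : IsPrimitiveRoot ζ M) (B : ℤ) (hB : B % 4 = 1) (hBM : B ∣ (M : ℤ))
    (β : K) (hβ : β ^ 2 = (B : K)) (g : K ≃ₐ[ℚ] K) (t : ℕ) (hg : Acts ζ g t)
    (ht : t.Coprime M) : g β = ((jacobiSym t B.natAbs : ℤ) : K) * β := by
  have h1 : Odd B.natAbs := by rw [Int.natAbs_odd]; rw [Int.odd_iff]; omega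
  have h2 : B.natAbs ∣ M := by
    have := Int.natAbs_dvd_natAbs.mpr hBM
    rwa [Int.natAbs_natCast] at this
  obtain ⟨γ, hγ, hγ'⟩ := exists_root hζ B.natAbs h1 h2
  have h3 : (if B.natAbs % 4 = 1 then (B.natAbs : ℤ) else -(B.natAbs : ℤ)) = B := by
    split_ifs <;> omega
  rw [h3, ← hβ] at hγ
  have h4 : β = γ ∨ β = -γ := by
    rcases sq_eq_sq_iff_eq_or_eq_neg.mp hγ with h | h
    · left; exact h.symm
    · right; rw [h, neg_neg]
  rcases h4 with rfl | rfl
  · exact hγ' g t hg ht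
  · rw [map_neg, hγ' g t hg ht]; ring

/-- The exponent that is a nonsquare at one prime only. -/
lemma exists_exp (M p : ℕ) [NeZero M] (hp : p.Prime) (hp2 : p ≠ 2) (hpM : p ∣ M) :
    ∃ t : ℕ, t.Coprime M ∧ ∀ n : ℕ, Squarefree n → Odd n → n ∣ M →
      jacobiSym t n = if p ∣ n then -1 else 1 := by
  classical
  have : Fact p.Prime := ⟨hp⟩
  have hchar : ringChar (ZMod p) ≠ 2 := by rw [ZMod.ringChar_zmod_n]; exact hp2
  obtain ⟨c, hc⟩ := FiniteField.exists_nonsquare hchar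
  obtain ⟨e, M', hM', hM⟩ := Nat.exists_eq_pow_mul_and_not_dvd (NeZero.ne M) p hp.one_lt.ne'
  have hcop : (p ^ e).Coprime M' := ((Nat.Prime.coprime_iff_not_dvd hp).mpr hM').pow_left e
  have he : e ≠ 0 := by
    rintro rfl
    rw [pow_zero, one_mul] at hM
    exact hM' (hM ▸ hpM)
  set t : ℕ := (Nat.chineseRemainder hcop c.val 1 : ℕ) with ht
  have h1 : t ≡ c.val [MOD p ^ e] := (Nat.chineseRemainder hcop c.val 1).2.1
  have h2 : t ≡ 1 [MOD M'] := (Nat.chineseRemainder hcop c.val 1).2.2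
  have h1' : t ≡ c.val [MOD p] := h1.of_dvd (dvd_pow_self p he)
  have h3 : ((t : ℕ) : ZMod p) = c := by
    rw [(ZMod.natCast_eq_natCast_iff _ _ _).mpr h1', ZMod.natCast_val, ZMod.cast_id]
  have hc0 : c ≠ 0 := by rintro rfl; exact hc ⟨0, by simp⟩
  have htp : ¬ p ∣ t := by
    intro h
    rw [← ZMod.natCast_eq_zero_iff, h3] at h
    exact hc0 h
  have hJp : jacobiSym t p = -1 := by
    rw [← jacobiSym.legendreSym.to_jacobiSym, legendreSym]
    have h4 : ((t : ℤ) : ZMod p) = c := by rw [Int.cast_natCast]; exact h3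
    rw [h4]
    exact (quadraticChar_neg_one_iff_not_isSquare).mpr hc
  have hone : ∀ n : ℕ, n ∣ M' → jacobiSym t n = 1 := by
    intro n hn
    have h5 : ((t : ℤ)) % (n : ℤ) = 1 % (n : ℤ) := by
      have := h2.of_dvd hn
      unfold Nat.ModEq at this
      exact_mod_cast this
    rw [jacobiSym.mod_left' h5, jacobiSym.one_left]
  refine ⟨t, ?_, ?_⟩
  · rw [hM]
    apply Nat.Coprime.mul_right
    · exact (((Nat.Prime.coprime_iff_not_dvd hp).mpr htp).symm).pow_right e
    · exact (Nat.ModEq.gcd_eq h2).trans (by simp)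
  · intro n hn hodd hnM
    split_ifs with h
    · obtain ⟨n', rfl⟩ := h
      have h6 := Nat.squarefree_mul_iff.mp hn
      have h7 : n' ∣ M' := by
        have h8 : n' ∣ p ^ e * M' := (Dvd.intro_left p rfl).trans (hM ▸ hnM)
        exact (Nat.Coprime.dvd_of_dvd_mul_left (h6.1.symm.pow_right e) h8)
      have : NeZero p := ⟨hp.ne_zero⟩
      have : NeZero n' := ⟨by rintro rfl; simp at hodd⟩
      rw [jacobiSym.mul_right, hJp, hone n' h7, mul_one]
    · apply hone
      have h8 : n ∣ p ^ e * M' := hM ▸ hnM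
      exact Nat.Coprime.dvd_of_dvd_mul_left
        ((((Nat.Prime.coprime_iff_not_dvd hp).mpr h).symm).pow_right e) h8

/-- The automorphism attached to an odd prime. -/
lemma exists_aut [IsCyclotomicExtension {M} ℚ K] (p : ℕ) (hp : p.Prime) (hp2 : p ≠ 2)
    (hpM : p ∣ M) : ∃ g : K ≃ₐ[ℚ] K, ∀ (B : ℤ), B % 4 = 1 → Squarefree B → B ∣ (M : ℤ) →
      ∀ β : K, β ^ 2 = (B : K) → g β = (if (p : ℤ) ∣ B then -1 else 1) * β := by
  classical
  obtain ⟨t, ht, hJ⟩ := exists_exp M p hp hp2 hpM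
  have hM0 : 0 < M := Nat.pos_of_ne_zero (NeZero.ne M)
  have hζ := IsCyclotomicExtension.zeta_spec M ℚ K
  have hζt := hζ.pow_of_coprime t ht
  refine ⟨IsCyclotomicExtension.fromZetaAut hζt (Polynomial.cyclotomic.irreducible_rat hM0), ?_⟩
  intro B hB hsq hBM β hβ
  rw [root_act hζ B hB hBM β hβ _ t (IsCyclotomicExtension.fromZetaAut_spec hζt _) ht]
  have h2 : B.natAbs ∣ M := by
    have := Int.natAbs_dvd_natAbs.mpr hBM
    rwa [Int.natAbs_natCast] at this
  have h1 : Odd B.natAbs := by rw [Int.natAbs_odd]; rw [Int.odd_iff]; omega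
  rw [hJ B.natAbs (Int.squarefree_natAbs.mpr hsq) h1 h2]
  have h3 : p ∣ B.natAbs ↔ (p : ℤ) ∣ B := by rw [← Int.natCast_dvd]
  by_cases h : (p : ℤ) ∣ B
  · rw [if_pos h, if_pos (h3.mpr h)]; simp
  · rw [if_neg h, if_neg (fun h' => h (h3.mp h'))]; simp

end Pool.Agent.Q210.RS
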